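import Pool.Agent.Lib.MP_c0f824_an.FT.Packet
import Pool.Agent.Lib.MP_c0f824_an.FT.Zero

/-!
# Fractal local smoothing: Kakeya compression at fractal times

See the claim file. The definitions are in `Pool.Agent.Lib.MP_c0f824_an.FT.Defs`.
-/

open Set
open Pool.Agent.Lib.MP_c0f824_an.FT

theorem Pool.Agent.Results.MP_c0f824_an.KakeyaCompression.result :
    ∀ (d : ℕ) (α q : ℝ), 2 ≤ d → 0 < α → α < 1 → 2 < q →
      (∀ s : ℝ, s < sStar d α q →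
        (∃ E : Set ℝ, E ⊆ Icc 1 2 ∧
          (∃ (κ : ℕ) (C₀ : ℝ), ∀ δ a b : ℝ, 0 < δ → δ < 1 → 1 ≤ a → b ≤ 2 → δ ≤ b - a →
            (cov (E ∩ Icc a b) δ : ℝ) ≤ C₀ * (Real.log (2 / δ)) ^ κ * ((b - a) / δ) ^ α) ∧
          ∀ p : ℝ, 1 ≤ p → ∀ β : ℝ → ℝ, IsCutoff β → ∀ C : ℝ, ¬ Ineq d β E p q s C) ∧
        (∃ c : ℝ, 0 < c ∧ ∀ β : ℝ → ℝ, IsCutoff β → ∀ A₀ : ℝ, ∃ A : ℝ, A₀ ≤ A ∧
          ∃ E : Set ℝ, E ⊆ Icc 1 2 ∧
            (∀ δ a b : ℝ, 0 < δ → δ < 1 → 1 ≤ a → b ≤ 2 → δ ≤ b - a →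
              (cov (E ∩ Icc a b) δ : ℝ) ≤ A * ((b - a) / δ) ^ α) ∧
            ∀ p : ℝ, 1 ≤ p → ∀ C : ℝ, Ineq d β E p q s C → Real.exp (A ^ c) ≤ C)) ∧
      (∀ p : ℝ, 0 < p → OnL d α p q → qc d α ≤ q →
        q < qc d α + 2 * α * (1 - α) / (3 * d + 5 + α * ((d : ℝ) - 1)) →
        1 < p ∧ sc d α p q < sStar d α q) := by
  have hW := WaveM.specWave
  have hS := specSep
  have hP := ParamM.specParam hS
  have hL := LowerM.specLower PacketM.specPacket hW SignsM.specSigns MassM.specMass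
    (OverlapM.specOverlap ZeroM.specZero) (CompressM.specCompress CarryM.specCarry)
    NetM.specNet hS hP
  have hN := NumM.specNum
  have hC := specCover
  have hU := UnionM.specUnion hC hP
  intro d α q hd hα0 hα1 hq
  refine ⟨fun s hs => ?_, fun p hp hon h1 h2 => (LineM.specLine d α p q hd hα0 hα1 hp hon h1 h2).2⟩
  obtain ⟨m, rfl⟩ : ∃ m, d = m + 1 := ⟨d - 1, by omega⟩
  have hm : 1 ≤ m := by omega
  exact ⟨GeneralM.partA hL hN hU hP m α q s hm hα0 hα1 hq hs,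
    GeneralM.partB hL hN hC hP m α q s hm hα0 hα1 hq hs⟩
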