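import Pool.Agent.Lib.MP_c0f824_an.Rad

/-!
Fractal local smoothing for radial functions: the inequality `(∗)` holds for all radial functions
with the critical exponent, with no loss, on the whole line `(L)` with `q > q_c`, and in fact for
all `1 ≤ p ≤ q < ∞` except the point `p = q = q_c`.
-/

open MeasureTheory Set
open scoped ENNReal

namespace Pool.Agent.Results.MP_c0f824_an.Radial

open Pool.Agent.Lib.MP_c0f824_an.FT (IsCutoff halfWave s1 s3 sc OnL qc)
open Pool.Agent.Lib.MPc0f824 (V wave BddChar RadIneq)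

/-- Let `d ≥ 2`, `α > 0` and let `E ⊆ [1,2]` have bounded `α`-Assouad characteristic.
`RadIneq d β E p q s` is the inequality `(∗)` for all radial `f`, with a constant independent of
`j ≥ 1`, of `f` and of the `2^{-j}`-separated subset of `E`.
(1) It holds with `s = s_c(p,q)` for all `(p,q)` on the line `(L)` with `q_c < q < ∞`.
(2) It holds with `s = s_c(p,q)` for all `1 ≤ p ≤ q < ∞` other than `p = q = q_c`.
(3) It holds for all `1 ≤ p ≤ q < ∞` and all `s ≥ max{s₁, s₃, 1/p - (1-α)/q}`, if for `q = q_c`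
also `s > 1/p - (1-α)/q`.
(4) On integrable functions the operator in `RadIneq` (a convolution) is `e^{it√(-Δ)} P_j`. -/
theorem result (d : ℕ) (α : ℝ) (hd : 2 ≤ d) (hα : 0 < α) (β : ℝ → ℝ) (hβ : IsCutoff β)
    (E : Set ℝ) (hE : E ⊆ Icc 1 2) (hA : BddChar α E) :
    (∀ p q : ℝ, 0 < p → OnL d α p q → qc d α < q →
      1 ≤ p ∧ p < q ∧ RadIneq d β E p q (sc d α p q)) ∧
    (∀ p q : ℝ, 1 ≤ p → p ≤ q → ¬ (p = q ∧ q = qc d α) → RadIneq d β E p q (sc d α p q)) ∧
    (∀ p q s : ℝ, 1 ≤ p → p ≤ q →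
      max (s1 d p q) (max (s3 d α p q) (1 / p - (1 - α) / q)) ≤ s →
      (q = qc d α → 1 / p - (1 - α) / q < s) → RadIneq d β E p q s) ∧
    (∀ (j : ℕ) (t : ℝ) (f : V d → ℂ), Integrable f → ∀ x : V d,
      halfWave β j t f x = wave (fun r => ((β r : ℝ) : ℂ)) j t f x) := by
  have h2 : ∀ p q : ℝ, 1 ≤ p → p ≤ q → ¬ (p = q ∧ q = qc d α) → RadIneq d β E p q (sc d α p q) := by
    intro p q hp hpq hne
    obtain ⟨h3, h4⟩ := Pool.Agent.Lib.MPc0f824.sRad_le_sc (α := α) hd hp hpq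
    refine Pool.Agent.Lib.MPc0f824.radial_all hd hα hβ hE hA hp hpq h3 fun hq => h4 ?_
    refine lt_of_le_of_ne hpq fun h => hne ⟨h, hq⟩
  refine ⟨fun p q hp hL hq => ?_, h2, fun p q s hp hpq hs hs' => ?_, fun j t f hf x => ?_⟩
  · obtain ⟨h5, h6⟩ := Pool.Agent.Lib.MPc0f824.onL_range hd hα hp hL hq
    exact ⟨h5, h6, h2 p q h5 h6.le fun h => hq.ne' h.2⟩
  · exact Pool.Agent.Lib.MPc0f824.radial_all hd hα hβ hE hA hp hpq hs hs'
  · exact Pool.Agent.Lib.MPc0f824.halfWave_eq_wave hβ j t hf x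

end Pool.Agent.Results.MP_c0f824_an.Radial
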